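import Pool.Agent.Helper72.ZF.Defs

/-!
# The degree map for families of projective varieties (row FDEG, MP_bd895b)
-/

set_option autoImplicit false

open MvPolynomial

namespace ZC

universe u

variable {K : Type u} [Field K] {m s : ℕ} {B : ProjVar K m s} {n r : ℕ}

/-- The residue field of the image of a point under an embedding. -/
theorem finrank_coordField_sup_image {L M : Type*} [Field L] [Algebra K L] [Field M] [Algebra K M]
    (t : L →ₐ[K] M) (b c : M) (hb : b ≠ 0) (hc : c ≠ 0) (x : Fin (m + 1) → L)
    (y : Fin (n + 1) → L) :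
    Module.finrank K (coordField K (fun i => b * t (x i)) ⊔ coordField K (fun i => c * t (y i)) :
      IntermediateField K M) =
    Module.finrank K (coordField K x ⊔ coordField K y : IntermediateField K L) := by
  rw [coordField_image t b hb x, coordField_image t c hc y, ← IntermediateField.map_sup]
  exact (((coordField K x ⊔ coordField K y).equivMap t).toLinearEquiv.finrank_eq).symm

theorem Family.degPt_aux (X : Family B n r) (p q : X.GPt) (h : X.gSetoid.r p q) :
    Module.finrank K (coordField K p.1.1 ⊔ coordField K p.1.2 :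
      IntermediateField K (AlgebraicClosure K)) =
    Module.finrank K (coordField K q.1.1 ⊔ coordField K q.1.2 :
      IntermediateField K (AlgebraicClosure K)) := by
  obtain ⟨t, b, c, hb, hc, h1, h2⟩ := h
  have h3 : q.1.1 = fun i => b * (t : AlgebraicClosure K →ₐ[K] AlgebraicClosure K) (p.1.1 i) :=
    funext h1
  have h4 : q.1.2 = fun i => c * (t : AlgebraicClosure K →ₐ[K] AlgebraicClosure K) (p.1.2 i) :=
    funext h2
  rw [h3, h4]
  exact (finrank_coordField_sup_image _ b c hb hc p.1.1 p.1.2).symm

/-- The degree of a closed point. -/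
noncomputable def Family.degPt (X : Family B n r) : X.ClosedPoint → ℕ :=
  Quotient.lift (fun p : X.GPt => Module.finrank K (coordField K p.1.1 ⊔ coordField K p.1.2 :
    IntermediateField K (AlgebraicClosure K))) X.degPt_aux

/-- The degree of a zero-cycle. -/
noncomputable def Family.degZ (X : Family B n r) : (X.ClosedPoint →₀ ℤ) →+ ℤ :=
  Finsupp.liftAddHom fun P => AddMonoidHom.mulRight (X.degPt P : ℤ)

theorem Family.degZ_single (X : Family B n r) (P : X.ClosedPoint) (k : ℤ) :
    X.degZ (Finsupp.single P k) = k * X.degPt P := by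
  rw [Family.degZ, Finsupp.liftAddHom_apply_single]
  rfl

theorem Family.degPt_closedPt (X : Family B n r) {L : Type*} [Field L] [Algebra K L]
    [Algebra.IsAlgebraic K L] (x : Fin (m + 1) → L) (y : Fin (n + 1) → L) (h : X.IsPt x y) :
    X.degPt (X.closedPt x y h) =
      Module.finrank K (coordField K x ⊔ coordField K y : IntermediateField K L) := by
  have h1 := finrank_coordField_sup_image (IsAlgClosed.lift : L →ₐ[K] AlgebraicClosure K) 1 1
    one_ne_zero one_ne_zero x y
  have h2 : (fun i => (1 : AlgebraicClosure K) *
      (IsAlgClosed.lift : L →ₐ[K] AlgebraicClosure K) (x i)) =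
      fun i => (IsAlgClosed.lift : L →ₐ[K] AlgebraicClosure K) (x i) :=
    funext fun i => one_mul _
  have h3 : (fun i => (1 : AlgebraicClosure K) *
      (IsAlgClosed.lift : L →ₐ[K] AlgebraicClosure K) (y i)) =
      fun i => (IsAlgClosed.lift : L →ₐ[K] AlgebraicClosure K) (y i) :=
    funext fun i => one_mul _
  rw [h2, h3] at h1
  exact h1

theorem Family.degZ_ptCycle (X : Family B n r) {L : Type*} [Field L] [Algebra K L]
    [FiniteDimensional K L] (x : Fin (m + 1) → L) (y : Fin (n + 1) → L) (h : X.IsPt x y) :
    X.degZ (X.ptCycle x y h) = Module.finrank K L := by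
  have halg : Algebra.IsAlgebraic K L := inferInstance
  rw [Family.ptCycle, dif_pos halg, Family.degZ_single, Family.degPt_closedPt]
  have h := Module.finrank_mul_finrank K
    (coordField K x ⊔ coordField K y : IntermediateField K L) L
  rw [← h]
  push_cast
  ring

theorem Family.degZ_curveCycle (X : Family B n r) {E : Type u} [Field E] [Algebra K E]
    (hres : ∀ w : Place K E, Module.Finite K w.res) (x : Fin (m + 1) → E)
    (y : Fin (n + 1) → E) (h : X.IsPt x y) (g : E)
    (hfin : {w : Place K E | w.ord g ≠ 0}.Finite)
    (hsum : ∑ᶠ w : Place K E, w.ord g * (w.deg : ℤ) = 0) :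
    X.degZ (X.curveCycle x y h g) = 0 := by
  rw [Family.curveCycle, AddMonoidHom.map_finsum]
  · rw [← hsum]
    refine finsum_congr fun w => ?_
    have := hres w
    rw [map_zsmul, Family.degZ_ptCycle, smul_eq_mul]
    rfl
  · refine hfin.subset fun w hw => ?_
    intro h0
    apply hw
    change w.ord g • _ = 0
    rw [h0, zero_smul]

theorem Family.ratEquiv_le_ker (X : Family B n r) : X.ratEquiv ≤ X.degZ.ker := by
  rw [Family.ratEquiv, AddSubgroup.closure_le]
  rintro c ⟨E, iF, iA, hE, x, y, h, g, hg, rfl⟩
  exact X.degZ_curveCycle (Place.finite_residue hE) x y h g (sum_ord_deg hE g hg).1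
    (sum_ord_deg hE g hg).2

/-- The degree map on the Chow group. -/
noncomputable def Family.deg (X : Family B n r) : X.CH0 →+ ℤ :=
  QuotientAddGroup.lift X.ratEquiv X.degZ X.ratEquiv_le_ker

theorem Family.deg_toCH0 (X : Family B n r) (c : X.ClosedPoint →₀ ℤ) :
    X.deg (X.toCH0 c) = X.degZ c := rfl

theorem Family.deg_cls (X : Family B n r) (x : Fin (m + 1) → K) (y : Fin (n + 1) → K)
    (h : X.IsPt x y) : X.deg (X.cls x y h) = 1 := by
  change X.degZ (Finsupp.single (X.closedPt x y h) 1) = 1
  rw [Family.degZ_single, Family.degPt_closedPt]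
  have h := Module.finrank_mul_finrank K
    (coordField K x ⊔ coordField K y : IntermediateField K K) K
  rw [Module.finrank_self] at h
  rw [Nat.eq_one_of_mul_eq_one_right h]
  simp

end ZC
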